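import Pool.Agent.Helper44.LD3.LEN

/-!
# Project LD8, block LEN8: the bound for the dimension
-/

set_option autoImplicit false

namespace Pool.Agent.Helper64.LD8

open Set MeasureTheory Filter Topology
open Pool.Agent.Helper41.LD (Kk Kk_mono Kk_succ Kk_ge Kk_tendsto)
open Pool.Agent.Helper41.LD3 (ll ll_pos ll_succ)

theorem bdd_of_anti64 {a : ℕ → ℝ} (h0 : ∀ k, 0 ≤ a k) {k₀ : ℕ} (h : ∀ k ≥ k₀, a (k + 1) ≤ a k) : ∃ C : ℝ, ∀ k, a k ≤ C := by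
  refine ⟨∑ j ∈ Finset.range (k₀ + 1), a j, fun k => ?_⟩
  have h1 : ∀ j, j ≤ k₀ → a j ≤ ∑ i ∈ Finset.range (k₀ + 1), a i := fun j hj =>
    Finset.single_le_sum (f := a) (fun i _ => h0 i) (Finset.mem_range.2 (by omega))
  rcases le_total k k₀ with hk | hk
  · exact h1 k hk
  · obtain ⟨m, rfl⟩ := Nat.exists_eq_add_of_le hk
    induction m with
    | zero => exact h1 _ le_rfl
    | succ m ih => exact (h (k₀ + m) (by omega)).trans (ih (by omega))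

/-- a power against a linear function, in the exponents -/
theorem ev_ratio64 {κ : ℕ} (hκ : 1 ≤ κ) (m : ℕ) {s : ℝ} (hs1 : s < 1) :
    ∀ᶠ K : ℕ in atTop, (2 : ℝ) ^ (3 * (m * (K + 1))) ≤ ((2 : ℝ) ^ (K ^ (2 * κ + 1))) ^ (1 - s) := by
  obtain ⟨N, hN⟩ := exists_nat_gt (6 * m / (1 - s))
  filter_upwards [eventually_ge_atTop (max N 1)] with K hK
  have hK1 : 1 ≤ K := (le_max_right _ _).trans hK
  have hKN : N ≤ K := (le_max_left _ _).trans hK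
  have hpos : 0 < 1 - s := by linarith
  have h1 : 6 * (m : ℝ) ≤ (1 - s) * K := by
    rw [div_lt_iff₀ hpos] at hN
    have h2 : (N : ℝ) ≤ K := by exact_mod_cast hKN
    nlinarith
  have h0 : K ^ 2 ≤ K ^ (2 * κ + 1) := Nat.pow_le_pow_right hK1 (by omega)
  have h0' : (K : ℝ) ^ 2 ≤ (K : ℝ) ^ (2 * κ + 1) := by exact_mod_cast h0
  have h3 : ((3 * (m * (K + 1)) : ℕ) : ℝ) ≤ ((K ^ (2 * κ + 1) : ℕ) : ℝ) * (1 - s) := by
    push_cast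
    have hKr : (1 : ℝ) ≤ K := by exact_mod_cast hK1
    have hm : (0 : ℝ) ≤ m := by positivity
    calc 3 * ((m : ℝ) * ((K : ℝ) + 1)) ≤ 6 * m * K := by nlinarith
      _ ≤ (1 - s) * K * K := mul_le_mul_of_nonneg_right h1 (by positivity)
      _ = (K : ℝ) ^ 2 * (1 - s) := by ring
      _ ≤ _ := mul_le_mul_of_nonneg_right h0' hpos.le
  rw [← Real.rpow_natCast 2 (K ^ (2 * κ + 1)), ← Real.rpow_mul (by norm_num), ← Real.rpow_natCast 2 (3 * (m * (K + 1)))]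
  exact Real.rpow_le_rpow_of_exponent_le (by norm_num) h3

theorem mass_bound8 {κ : ℕ} (hκ : 1 ≤ κ) {ℓ₀ : ℝ} (hℓ₀ : 0 < ℓ₀) (K₀ : ℕ) (m : ℕ) {s : ℝ} (hs : 0 < s) (hs1 : s < 1) :
    ∃ C : ℝ, ∀ k, (∏ j ∈ Finset.range (k + 1), ((1 / 2 : ℝ) ^ (3 * (m * Kk K₀ j)))⁻¹) * ll κ K₀ ℓ₀ k ^ (1 - s) ≤ C := by
  obtain ⟨k₀, hk₀⟩ := eventually_atTop.1 ((Kk_tendsto K₀).eventually (ev_ratio64 hκ m hs1))
  refine bdd_of_anti64 (k₀ := k₀) (fun k => ?_) fun k hk => ?_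
  · exact mul_nonneg (Finset.prod_nonneg fun j _ => by positivity) (Real.rpow_nonneg (ll_pos hℓ₀ K₀ k).le _)
  · have hpos := ll_pos (κ := κ) hℓ₀ K₀ k
    have hXpos : (0 : ℝ) < 2 ^ (Kk K₀ k ^ (2 * κ + 1)) := by positivity
    rw [Finset.prod_range_succ _ (k + 1), ll_succ, Real.div_rpow hpos.le hXpos.le]
    have e3 : ((1 / 2 : ℝ) ^ (3 * (m * Kk K₀ (k + 1))))⁻¹ ≤ ((2 : ℝ) ^ (Kk K₀ k ^ (2 * κ + 1))) ^ (1 - s) := by
      have e4 : ((1 / 2 : ℝ) ^ (3 * (m * Kk K₀ (k + 1))))⁻¹ = 2 ^ (3 * (m * Kk K₀ (k + 1))) := by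
        rw [← inv_pow]; norm_num
      rw [e4]
      refine (pow_le_pow_right₀ (by norm_num) ?_).trans (hk₀ k hk)
      refine Nat.mul_le_mul_left _ (Nat.mul_le_mul_left _ ?_)
      have := Kk_succ K₀ k
      omega
    have hP0 : 0 ≤ ∏ j ∈ Finset.range (k + 1), ((1 / 2 : ℝ) ^ (3 * (m * Kk K₀ j)))⁻¹ := Finset.prod_nonneg fun j _ => by positivity
    have hBs : 0 < ((2 : ℝ) ^ (Kk K₀ k ^ (2 * κ + 1))) ^ (1 - s) := Real.rpow_pos_of_pos hXpos _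
    have hℓs : 0 ≤ ll κ K₀ ℓ₀ k ^ (1 - s) := Real.rpow_nonneg hpos.le _
    rw [mul_div_assoc', div_le_iff₀ hBs]
    calc (∏ j ∈ Finset.range (k + 1), ((1 / 2 : ℝ) ^ (3 * (m * Kk K₀ j)))⁻¹) * ((1 / 2 : ℝ) ^ (3 * (m * Kk K₀ (k + 1))))⁻¹ * ll κ K₀ ℓ₀ k ^ (1 - s)
        ≤ (∏ j ∈ Finset.range (k + 1), ((1 / 2 : ℝ) ^ (3 * (m * Kk K₀ j)))⁻¹) * ((2 : ℝ) ^ (Kk K₀ k ^ (2 * κ + 1))) ^ (1 - s) * ll κ K₀ ℓ₀ k ^ (1 - s) := by
          gcongr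
      _ = _ := by ring

end Pool.Agent.Helper64.LD8
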